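import Pool.Agent.Q293.HF.Stm

/-!
Job HF-FIN: the space of sections has finite dimension.
-/

set_option autoImplicit false

open Topology Filter

namespace Pool.Agent.Q160.HF.FIN

open Pool.Agent.Q293.HF Pool.Agent.Helper922.HB Complex MeasureTheory Metric

/-- the integral for the Laurent coefficient -/
noncomputable def A (s : ℂ → ℂ) (n : ℤ) (r : ℝ) : ℂ := ∮ z in C(0, r), z ^ (-n - 1) * s z

theorem diff_on {s : ℂ → ℂ} (hs : DifferentiableOn ℂ s {0}ᶜ) (n : ℤ) :
    DifferentiableOn ℂ (fun z => z ^ (-n - 1) * s z) {0}ᶜ :=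
  (differentiableOn_zpow _ _ (Or.inl (by simp))).mul hs

theorem A_mono {s : ℂ → ℂ} (hs : DifferentiableOn ℂ s {0}ᶜ) (n : ℤ) {r R : ℝ} (hr : 0 < r) (hrR : r ≤ R) :
    A s n R = A s n r := by
  unfold A
  apply circleIntegral_eq_of_differentiable_on_annulus_off_countable hr hrR (s := ∅) Set.countable_empty
  · refine (diff_on hs n).continuousOn.mono ?_
    rintro z ⟨_, hz⟩ h0
    rw [Set.mem_singleton_iff] at h0
    subst h0
    exact hz (mem_ball_self hr)
  · rintro z ⟨⟨_, hz⟩, _⟩
    refine (diff_on hs n).differentiableAt (isOpen_compl_singleton.mem_nhds ?_)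
    intro h0
    rw [Set.mem_singleton_iff] at h0
    subst h0
    exact hz (mem_closedBall_self hr.le)

theorem A_radius {s : ℂ → ℂ} (hs : DifferentiableOn ℂ s {0}ᶜ) (n : ℤ) {r R : ℝ} (hr : 0 < r) (hR : 0 < R) :
    A s n R = A s n r := by
  rcases le_total r R with h | h
  · exact A_mono hs n hr h
  · exact (A_mono hs n hR h).symm

theorem circle_half (θ : ℝ) : circleMap 0 (1 / 2) θ = circleMap 0 1 θ / 2 := by
  simp only [circleMap]
  push_cast
  ring

theorem A_scale {s : ℂ → ℂ} {c : ℂ} (hf : ∀ z, z ≠ 0 → s (z / 2) = c * z⁻¹ ^ 3 * s z) (n : ℤ) :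
    A s n (1 / 2) = (2 : ℂ) ^ n * c * A s (n + 3) 1 := by
  unfold A circleIntegral
  rw [← intervalIntegral.integral_const_mul]
  congr 1
  funext θ
  have hw : circleMap 0 1 θ ≠ 0 := circleMap_ne_center one_ne_zero
  rw [deriv_circleMap, deriv_circleMap, circle_half]
  beta_reduce
  rw [hf _ hw]
  generalize circleMap 0 1 θ = w at hw
  simp only [smul_eq_mul]
  have h1 : (w / 2) ^ (-n - 1) = w ^ (-n - 1) * (2 : ℂ) ^ (n + 1) := by
    rw [div_zpow, show -n - 1 = -(n + 1) by ring, zpow_neg 2, div_inv_eq_mul]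
  have h2 : w ^ (-(n + 3) - 1) = w ^ (-n - 1) * w⁻¹ ^ 3 := by
    rw [← zpow_natCast, inv_zpow', ← zpow_add₀ hw]
    congr 1
    push_cast
    ring
  rw [h1, h2, zpow_add₀ (two_ne_zero : (2 : ℂ) ≠ 0), zpow_one]
  ring

/-- all Laurent coefficients zero -/
theorem zero_on_circle {s : ℂ → ℂ} (hs : DifferentiableOn ℂ s {0}ᶜ) {r : ℝ} (hr : 0 < r)
    (h : ∀ n, A s n r = 0) : ∀ z : ℂ, ‖z‖ = r → s z = 0 := by
  have : Fact (0 < 2 * Real.pi) := ⟨Real.two_pi_pos⟩
  have hne : ∀ t : AddCircle (2 * Real.pi), (r : ℂ) * (AddCircle.toCircle t : ℂ) ∈ ({0}ᶜ : Set ℂ) := by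
    intro t
    rw [Set.mem_compl_iff, Set.mem_singleton_iff]
    exact mul_ne_zero (by exact_mod_cast hr.ne') (Circle.coe_ne_zero _)
  have hcont : Continuous fun t : AddCircle (2 * Real.pi) => s ((r : ℂ) * (AddCircle.toCircle t : ℂ)) := by
    apply hs.continuousOn.comp_continuous _ hne
    exact continuous_const.mul (continuous_subtype_val.comp AddCircle.continuous_toCircle)
  let f : C(AddCircle (2 * Real.pi), ℂ) := ⟨fun t => s ((r : ℂ) * (AddCircle.toCircle t : ℂ)), hcont⟩
  have hcirc : ∀ θ : ℝ, (r : ℂ) * (AddCircle.toCircle (θ : AddCircle (2 * Real.pi)) : ℂ) = circleMap 0 r θ := by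
    intro θ
    rw [AddCircle.toCircle_apply_mk, Circle.coe_exp, circleMap, zero_add]
    congr 3
    have : (2 * Real.pi / (2 * Real.pi) : ℝ) = 1 := div_self Real.two_pi_pos.ne'
    rw [this, one_mul]
  have hcoef : ∀ n : ℤ, fourierCoeff f n = 0 := by
    intro n
    rw [fourierCoeff_eq_intervalIntegral f n 0, zero_add]
    have h1 : A s n r = (I * (r : ℂ) ^ (-n)) *
        ∫ x in (0 : ℝ)..(2 * Real.pi), @fourier (2 * Real.pi) (-n) x • f x := by
      unfold A circleIntegral
      rw [← intervalIntegral.integral_const_mul]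
      congr 1
      funext θ
      have h2 : f (θ : AddCircle (2 * Real.pi)) = s (circleMap 0 r θ) := by
        change s ((r : ℂ) * (AddCircle.toCircle (θ : AddCircle (2 * Real.pi)) : ℂ)) = _
        rw [hcirc]
      have h3 : (@fourier (2 * Real.pi) (-n) (θ : AddCircle (2 * Real.pi)) : ℂ) = Complex.exp (θ * I) ^ (-n) := by
        rw [fourier_coe_apply, ← Complex.exp_int_mul]
        congr 1
        have : (Real.pi : ℂ) ≠ 0 := by exact_mod_cast Real.pi_ne_zero
        push_cast
        field_simp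
      have hw : circleMap 0 r θ ≠ 0 := circleMap_ne_center hr.ne'
      have h4 : circleMap 0 r θ * circleMap 0 r θ ^ (-n - 1) = (r : ℂ) ^ (-n) * Complex.exp (θ * I) ^ (-n) := by
        rw [← zpow_one_add₀ hw, show 1 + (-n - 1) = -n by ring, ← mul_zpow, circleMap, zero_add]
      rw [deriv_circleMap, h2, h3]
      simp only [smul_eq_mul]
      calc circleMap 0 r θ * I * (circleMap 0 r θ ^ (-n - 1) * s (circleMap 0 r θ))
          = I * (circleMap 0 r θ * circleMap 0 r θ ^ (-n - 1)) * s (circleMap 0 r θ) := by ring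
        _ = _ := by rw [h4]; ring
    rw [h n] at h1
    have h5 : I * (r : ℂ) ^ (-n) ≠ 0 :=
      mul_ne_zero I_ne_zero (zpow_ne_zero _ (by exact_mod_cast hr.ne'))
    have h6 := (mul_eq_zero.mp h1.symm).resolve_left h5
    rw [h6, smul_zero]
  have hsum : Summable (fourierCoeff f) := by
    have : fourierCoeff f = fun _ => (0 : ℂ) := funext hcoef
    rw [this]
    exact summable_zero
  have h1 := hasSum_fourier_series_of_summable hsum
  have h2 : HasSum (fun i => fourierCoeff f i • (fourier i : C(AddCircle (2 * Real.pi), ℂ))) 0 := by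
    have : (fun i => fourierCoeff f i • (fourier i : C(AddCircle (2 * Real.pi), ℂ))) = fun _ => 0 := by
      funext i
      rw [hcoef i, zero_smul]
    rw [this]
    exact hasSum_zero
  have h3 : f = 0 := h1.unique h2
  intro z hz
  have h4 : f ((Complex.arg z : ℝ) : AddCircle (2 * Real.pi)) = 0 := by
    rw [h3]
    rfl
  change s ((r : ℂ) * (AddCircle.toCircle ((Complex.arg z : ℝ) : AddCircle (2 * Real.pi)) : ℂ)) = 0 at h4
  rw [hcirc, circleMap, zero_add, ← hz, Complex.norm_mul_exp_arg_mul_I] at h4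
  exact h4

theorem zero_of_three {s : ℂ → ℂ} {c : ℂ} (hc : c ≠ 0) (hs : DifferentiableOn ℂ s {0}ᶜ)
    (hf : ∀ z, z ≠ 0 → s (z / 2) = c * z⁻¹ ^ 3 * s z) (h0 : s 0 = 0)
    (h : ∀ i : Fin 3, A s ((i : ℕ) : ℤ) 1 = 0) : s = 0 := by
  have hstep : ∀ n : ℤ, A s n 1 = (2 : ℂ) ^ n * c * A s (n + 3) 1 := by
    intro n
    rw [← A_scale hf n, A_radius hs n (show (0 : ℝ) < 1 / 2 by norm_num) one_pos]
  have hiff : ∀ n : ℤ, A s n 1 = 0 ↔ A s (n + 3) 1 = 0 := by
    intro n
    rw [hstep n]
    constructor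
    · intro h1
      exact (mul_eq_zero.mp h1).resolve_left (mul_ne_zero (zpow_ne_zero _ two_ne_zero) hc)
    · intro h1
      rw [h1, mul_zero]
  have hk : ∀ (k n : ℤ), A s n 1 = 0 → A s (n + 3 * k) 1 = 0 := by
    intro k n hn
    induction k using Int.induction_on with
    | zero => simpa using hn
    | succ k ih =>
      have := (hiff _).mp ih
      rwa [show n + 3 * (k : ℤ) + 3 = n + 3 * ((k : ℤ) + 1) by ring] at this
    | pred k ih =>
      apply (hiff _).mpr
      rwa [show n + 3 * (-(k : ℤ) - 1) + 3 = n + 3 * (-(k : ℤ)) by ring]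
  have hall : ∀ n : ℤ, A s n 1 = 0 := by
    intro n
    have h1 : n = (n % 3) + 3 * (n / 3) := (Int.emod_add_mul_ediv n 3).symm
    have h2 : 0 ≤ n % 3 := Int.emod_nonneg _ (by norm_num)
    have h3 : n % 3 < 3 := Int.emod_lt_of_pos _ (by norm_num)
    rw [h1]
    apply hk
    obtain ⟨m, hm⟩ := Int.eq_ofNat_of_zero_le h2
    rw [hm] at h3 ⊢
    have h4 : m < 3 := by exact_mod_cast h3
    exact h ⟨m, h4⟩
  funext z
  by_cases hz : z = 0
  · rw [hz, h0]
    rfl
  · have hz' : 0 < ‖z‖ := norm_pos_iff.mpr hz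
    exact zero_on_circle hs hz' (fun n => by rw [A_radius hs n one_pos hz']; exact hall n) z rfl

/-- the three coefficients as a linear map -/
noncomputable def L (c : ℂ) : VV c →ₗ[ℂ] (Fin 3 → ℂ) where
  toFun s i := A s.1 ((i : ℕ) : ℤ) 1
  map_add' s s' := by
    funext i
    have hi : ∀ t : VV c, CircleIntegrable (fun z => z ^ (-((i : ℕ) : ℤ) - 1) * t.1 z) 0 1 := by
      intro t
      apply ContinuousOn.circleIntegrable zero_le_one
      refine (diff_on t.2.1 _).continuousOn.mono ?_
      intro z hz h0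
      rw [Set.mem_singleton_iff] at h0
      rw [h0] at hz
      simp at hz
    have h1 := circleIntegral.integral_add (hi s) (hi s')
    simp only [Pi.add_apply]
    unfold A
    rw [← h1]
    congr 1
    funext z
    simp only [Submodule.coe_add, Pi.add_apply]
    ring
  map_smul' a s := by
    funext i
    simp only [Pi.smul_apply, RingHom.id_apply]
    unfold A
    rw [← circleIntegral.integral_smul]
    congr 1
    funext z
    simp only [Submodule.coe_smul, Pi.smul_apply, smul_eq_mul]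
    ring

theorem fin : S_FIN := by
  intro c
  by_cases hc : c = 0
  · subst hc
    have h1 : VV 0 = ⊥ := by
      rw [Submodule.eq_bot_iff]
      rintro s ⟨_, h2, h3⟩
      funext z
      by_cases hz : z = 0
      · rw [hz, h3]
        rfl
      · have := h2 (z * 2) (mul_ne_zero hz two_ne_zero)
        rw [mul_div_cancel_right₀ _ two_ne_zero] at this
        rw [this]
        simp
    rw [h1]
    infer_instance
  · apply Module.Finite.of_injective (L c)
    rw [← LinearMap.ker_eq_bot, LinearMap.ker_eq_bot']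
    intro s hs
    apply Subtype.ext
    exact zero_of_three hc s.2.1 s.2.2.1 s.2.2.2 fun i => congrFun hs i

end Pool.Agent.Q160.HF.FIN
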